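import Mathlib

namespace Pool.Agent.Results.MP_ced6ff_co.HadamardClasses

open Finset

/-- `H` is a Hadamard matrix of order `n`: entries `1` or `-1` and `H * Hᵀ = n I`. -/
def IsHadamard {n : ℕ} (H : Matrix (Fin n) (Fin n) ℤ) : Prop :=
  (∀ i j, H i j = 1 ∨ H i j = -1) ∧ H * H.transpose = (n : ℤ) • (1 : Matrix (Fin n) (Fin n) ℤ)

/-- Hadamard equivalence: `K` arises from `H` by permuting rows and columns and by
multiplying rows and columns by `-1`. -/
def Equivalent {n : ℕ} (H K : Matrix (Fin n) (Fin n) ℤ) : Prop :=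
  ∃ (σ τ : Equiv.Perm (Fin n)) (r c : Fin n → ℤˣ),
    ∀ i j, K i j = (r i : ℤ) * (c j : ℤ) * H (σ i) (τ j)

/-- The type of Hadamard matrices of order `n`. -/
def HadamardMatrix (n : ℕ) : Type := {H : Matrix (Fin n) (Fin n) ℤ // IsHadamard H}

theorem Equivalent.refl {n : ℕ} (H : Matrix (Fin n) (Fin n) ℤ) : Equivalent H H :=
  ⟨1, 1, fun _ => 1, fun _ => 1, fun i j => by simp⟩

theorem Equivalent.symm {n : ℕ} {H K : Matrix (Fin n) (Fin n) ℤ} (h : Equivalent H K) :
    Equivalent K H := by
  obtain ⟨σ, τ, r, c, h⟩ := h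
  refine ⟨σ.symm, τ.symm, fun i => r (σ.symm i), fun j => c (τ.symm j), fun i j => ?_⟩
  rw [h]
  have h1 : ((r (σ.symm i) : ℤˣ) : ℤ) * ((r (σ.symm i) : ℤˣ) : ℤ) = 1 := by
    rw [← Units.val_mul, Int.units_mul_self]; rfl
  have h2 : ((c (τ.symm j) : ℤˣ) : ℤ) * ((c (τ.symm j) : ℤˣ) : ℤ) = 1 := by
    rw [← Units.val_mul, Int.units_mul_self]; rfl
  simp only [Equiv.apply_symm_apply]
  linear_combination (-(((c (τ.symm j) : ℤˣ) : ℤ) * ((c (τ.symm j) : ℤˣ) : ℤ)) * H i j) * h1 - (H i j) * h2

theorem Equivalent.trans {n : ℕ} {H K L : Matrix (Fin n) (Fin n) ℤ} (h : Equivalent H K)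
    (h' : Equivalent K L) : Equivalent H L := by
  obtain ⟨σ, τ, r, c, h⟩ := h
  obtain ⟨σ', τ', r', c', h'⟩ := h'
  refine ⟨σ * σ', τ * τ', fun i => r' i * r (σ' i), fun j => c' j * c (τ' j), fun i j => ?_⟩
  rw [h', h]
  simp only [Units.val_mul, Equiv.Perm.mul_apply]
  ring

/-- Hadamard equivalence on the Hadamard matrices of order `n`. -/
def hadamardSetoid (n : ℕ) : Setoid (HadamardMatrix n) where
  r H K := Equivalent H.1 K.1
  iseqv := ⟨fun H => Equivalent.refl H.1, fun h => h.symm, fun h h' => h.trans h'⟩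

/-- `h(n)`: the number of equivalence classes of Hadamard matrices of order `n`. -/
noncomputable def numClasses (n : ℕ) : ℕ := Nat.card (Quotient (hadamardSetoid n))

/-! ### Finiteness -/

instance finite_hadamardMatrix (n : ℕ) : Finite (HadamardMatrix n) := by
  let F : HadamardMatrix n → (Fin n → Fin n → Bool) := fun H i j => decide (H.1 i j = 1)
  apply Finite.of_injective F
  intro H K hHK
  apply Subtype.ext
  funext i j
  have h := congrFun (congrFun hHK i) j
  simp only [F, decide_eq_decide] at h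
  rcases H.2.1 i j with h1 | h1 <;> rcases K.2.1 i j with h2 | h2
  · rw [h1, h2]
  · rw [h1, h2] at h; simp at h
  · rw [h1, h2] at h; simp at h
  · rw [h1, h2]

instance (n : ℕ) : Finite (Quotient (hadamardSetoid n)) := inferInstance

/-! ### Homomorphism sums -/

section Hom

variable {k l : Type} [Fintype k] [Fintype l] [DecidableEq k] [DecidableEq l]
variable {α β α' β' : Type} [Fintype α] [Fintype β] [Fintype α'] [Fintype β']

/-- weighted number of maps from the bipartite graph with edge set `S` into `A`. -/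
def hom (S : Finset (k × l)) (A : α → β → ℤ) : ℤ :=
  ∑ u : k → α, ∑ v : l → β, ∏ p ∈ S, A (u p.1) (v p.2)

theorem hom_reindex (S : Finset (k × l)) (A : α → β → ℤ) (B : α' → β' → ℤ)
    (e : α ≃ α') (e' : β ≃ β') (h : ∀ a b, A a b = B (e a) (e' b)) :
    hom S A = hom S B := by
  unfold hom
  refine Fintype.sum_equiv (Equiv.arrowCongr (Equiv.refl k) e) _ _ (fun u => ?_)
  refine Fintype.sum_equiv (Equiv.arrowCongr (Equiv.refl l) e') _ _ (fun v => ?_)
  refine Finset.prod_congr rfl (fun p _ => ?_)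
  simp [h]

theorem hom_prod (S : Finset (k × l)) (A : α → β → ℤ) (B : α' → β' → ℤ) :
    hom S (fun (p : α × α') (q : β × β') => A p.1 q.1 * B p.2 q.2) = hom S A * hom S B := by
  unfold hom
  have h1 : (∑ u : k → α, ∑ v : l → β, ∏ p ∈ S, A (u p.1) (v p.2)) *
      (∑ u : k → α', ∑ v : l → β', ∏ p ∈ S, B (u p.1) (v p.2)) =
      ∑ x : (k → α) × (k → α'), (∑ v : l → β, ∏ p ∈ S, A (x.1 p.1) (v p.2)) *
        (∑ v : l → β', ∏ p ∈ S, B (x.2 p.1) (v p.2)) := by
    rw [Fintype.sum_mul_sum, Fintype.sum_prod_type]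
  rw [h1]
  refine Fintype.sum_equiv (Equiv.arrowProdEquivProdArrow k (fun _ => α) (fun _ => α')) _ _ ?_
  intro u
  have h2 : ∀ x : (k → α) × (k → α'), (∑ v : l → β, ∏ p ∈ S, A (x.1 p.1) (v p.2)) *
        (∑ v : l → β', ∏ p ∈ S, B (x.2 p.1) (v p.2)) =
      ∑ y : (l → β) × (l → β'), (∏ p ∈ S, A (x.1 p.1) (y.1 p.2)) *
        (∏ p ∈ S, B (x.2 p.1) (y.2 p.2)) := by
    intro x
    rw [Fintype.sum_mul_sum, Fintype.sum_prod_type]
  rw [h2]
  refine Fintype.sum_equiv (Equiv.arrowProdEquivProdArrow l (fun _ => β) (fun _ => β')) _ _ ?_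
  intro v
  rw [Finset.prod_mul_distrib]
  rfl

/-- the signs of the Hadamard matrix of order two -/
def s2 (a b : Fin 2) : ℤ := if a = 1 ∧ b = 1 then -1 else 1

theorem hom_s2_pos (S : Finset (k × l)) : 0 < hom S s2 := by
  unfold hom
  have key : ∀ u : k → Fin 2, (∑ v : l → Fin 2, ∏ p ∈ S, s2 (u p.1) (v p.2)) =
      ∏ j : l, (1 + ∏ p ∈ S.filter (fun p => p.2 = j), (if u p.1 = 1 then (-1 : ℤ) else 1)) := by
    intro u
    have h1 : ∀ v : l → Fin 2, ∏ p ∈ S, s2 (u p.1) (v p.2) =
        ∏ j : l, (if v j = 1 then ∏ p ∈ S.filter (fun p => p.2 = j),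
          (if u p.1 = 1 then (-1 : ℤ) else 1) else 1) := by
      intro v
      rw [← Finset.prod_fiberwise S (fun p => p.2) (fun p => s2 (u p.1) (v p.2))]
      refine Finset.prod_congr rfl (fun j _ => ?_)
      by_cases hv : v j = 1
      · rw [if_pos hv]
        refine Finset.prod_congr rfl (fun p hp => ?_)
        rw [Finset.mem_filter] at hp
        rw [hp.2]
        unfold s2
        by_cases hu : u p.1 = 1 <;> simp [hu, hv]
      · rw [if_neg hv]
        refine Finset.prod_eq_one (fun p hp => ?_)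
        rw [Finset.mem_filter] at hp
        rw [hp.2]
        unfold s2
        simp [hv]
    rw [Finset.sum_congr rfl (fun v _ => h1 v)]
    have h2 := Finset.prod_univ_sum (fun _ : l => (Finset.univ : Finset (Fin 2)))
      (fun (j : l) (b : Fin 2) => (if b = 1 then ∏ p ∈ S.filter (fun p => p.2 = j),
          (if u p.1 = 1 then (-1 : ℤ) else 1) else 1))
    rw [Fintype.piFinset_univ] at h2
    rw [← h2]
    refine Finset.prod_congr rfl (fun j _ => ?_)
    rw [Fin.sum_univ_two]
    simp
  have sign : ∀ (u : k → Fin 2) (T : Finset (k × l)),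
      (∏ p ∈ T, (if u p.1 = 1 then (-1 : ℤ) else 1)) = 1 ∨
      (∏ p ∈ T, (if u p.1 = 1 then (-1 : ℤ) else 1)) = -1 := by
    intro u T
    induction T using Finset.induction_on with
    | empty => left; simp
    | insert a s ha ih =>
      rw [Finset.prod_insert ha]
      by_cases hu : u a.1 = 1
      · rw [if_pos hu]
        rcases ih with h | h
        · right; rw [h]; norm_num
        · left; rw [h]; norm_num
      · rw [if_neg hu]
        rcases ih with h | h
        · left; rw [h]; norm_num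
        · right; rw [h]; norm_num
  apply Finset.sum_pos'
  · intro u _
    rw [key]
    refine Finset.prod_nonneg (fun j _ => ?_)
    rcases sign u (S.filter (fun p => p.2 = j)) with h | h <;> rw [h] <;> norm_num
  · refine ⟨fun _ => 0, Finset.mem_univ _, ?_⟩
    have h0 := key (fun _ => 0)
    rw [h0]
    refine Finset.prod_pos (fun j _ => ?_)
    simp

/-- The lift of a matrix to signed rows and columns. -/
def lift (M : α → β → ℤ) : α × ℤˣ → β × ℤˣ → ℤ :=
  fun a b => (a.2 : ℤ) * (b.2 : ℤ) * M a.1 b.1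

theorem expand (F : k → l → ℤ) (A : α → β → ℤ) :
    (∑ u : k → α, ∑ v : l → β, ∏ p : k × l, (1 + F p.1 p.2 * A (u p.1) (v p.2))) =
      ∑ S : Finset (k × l), (∏ p ∈ S, F p.1 p.2) * hom S A := by
  unfold hom
  simp_rw [Finset.mul_sum]
  rw [Finset.sum_comm]
  conv_rhs =>
    rw [Finset.sum_comm]
  rw [Finset.sum_comm]
  refine Finset.sum_congr rfl (fun u _ => ?_)
  rw [Finset.sum_comm]
  refine Finset.sum_congr rfl (fun v _ => ?_)
  rw [Finset.prod_one_add]
  rw [Finset.powerset_univ]
  refine Finset.sum_congr rfl (fun S _ => ?_)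
  rw [Finset.prod_mul_distrib]

end Hom

/-! ### The Sylvester double -/

/-- The double `[[H, H], [H, -H]]` as a matrix of order `2 n`. -/
def double {n : ℕ} (H : Matrix (Fin n) (Fin n) ℤ) : Matrix (Fin (2 * n)) (Fin (2 * n)) ℤ :=
  fun i j => s2 (finProdFinEquiv.symm i).1 (finProdFinEquiv.symm j).1 *
    H (finProdFinEquiv.symm i).2 (finProdFinEquiv.symm j).2

theorem double_hadamard {n : ℕ} {H : Matrix (Fin n) (Fin n) ℤ} (h : IsHadamard H) :
    IsHadamard (double H) := by
  refine ⟨fun i j => ?_, ?_⟩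
  · unfold double s2
    rcases h.1 (finProdFinEquiv.symm i).2 (finProdFinEquiv.symm j).2 with h1 | h1 <;> rw [h1] <;>
      split_ifs <;> simp
  · ext i j
    rw [Matrix.mul_apply]
    simp only [Matrix.transpose_apply]
    have h2 : ∀ a b : Fin n, ∑ k, H a k * H b k = if a = b then (n : ℤ) else 0 := by
      intro a b
      have := congrFun (congrFun h.2 a) b
      rw [Matrix.mul_apply] at this
      simp only [Matrix.transpose_apply, Matrix.smul_apply, Matrix.one_apply] at this
      rw [this]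
      split_ifs <;> simp
    have h3 : ∀ x y : Fin 2, s2 x 0 * s2 y 0 + s2 x 1 * s2 y 1 = if x = y then 2 else 0 := by
      unfold s2; decide
    have h4 : (∑ k, double H i k * double H j k) =
        ∑ q : Fin 2 × Fin n, (s2 (finProdFinEquiv.symm i).1 q.1 *
          H (finProdFinEquiv.symm i).2 q.2) * (s2 (finProdFinEquiv.symm j).1 q.1 *
          H (finProdFinEquiv.symm j).2 q.2) := by
      refine (Fintype.sum_equiv finProdFinEquiv _ _ (fun q => ?_)).symm
      simp only [double, Equiv.symm_apply_apply]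
    rw [h4, Fintype.sum_prod_type]
    simp only [Fin.sum_univ_two]
    have h5 : ∀ x : Fin 2, (∑ k : Fin n, (s2 (finProdFinEquiv.symm i).1 x *
          H (finProdFinEquiv.symm i).2 k) * (s2 (finProdFinEquiv.symm j).1 x *
          H (finProdFinEquiv.symm j).2 k)) =
          (s2 (finProdFinEquiv.symm i).1 x * s2 (finProdFinEquiv.symm j).1 x) *
          (if (finProdFinEquiv.symm i).2 = (finProdFinEquiv.symm j).2 then (n : ℤ) else 0) := by
      intro x
      rw [← h2, Finset.mul_sum]
      refine Finset.sum_congr rfl (fun k _ => ?_)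
      ring
    rw [h5, h5, ← add_mul, h3]
    simp only [Matrix.smul_apply, Matrix.one_apply]
    by_cases hij : i = j
    · subst hij
      simp
    · rw [if_neg hij]
      by_cases ha : (finProdFinEquiv.symm i).1 = (finProdFinEquiv.symm j).1
      · have hb : (finProdFinEquiv.symm i).2 ≠ (finProdFinEquiv.symm j).2 := by
          intro hb
          apply hij
          have : finProdFinEquiv.symm i = finProdFinEquiv.symm j := Prod.ext ha hb
          exact finProdFinEquiv.symm.injective this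
        rw [if_neg hb]
        simp
      · rw [if_neg ha]
        simp

/-- Signed equivalence gives isomorphic lifts. -/
theorem hom_lift_eq {k l : Type} [Fintype k] [Fintype l] [DecidableEq k] [DecidableEq l] {n : ℕ}
    (S : Finset (k × l)) {H K : Matrix (Fin n) (Fin n) ℤ}
    (h : Equivalent H K) : hom S (lift (α := Fin n) (β := Fin n) K) =
      hom S (lift (α := Fin n) (β := Fin n) H) := by
  obtain ⟨σ, τ, r, c, h⟩ := h
  refine hom_reindex S _ _
    ⟨fun a => (σ a.1, a.2 * r a.1), fun a => (σ.symm a.1, a.2 * r (σ.symm a.1)),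
      fun a => ?_, fun a => ?_⟩
    ⟨fun b => (τ b.1, b.2 * c b.1), fun b => (τ.symm b.1, b.2 * c (τ.symm b.1)),
      fun b => ?_, fun b => ?_⟩ (fun a b => ?_)
  · simp [mul_assoc, Int.units_mul_self]
  · simp [mul_assoc, Int.units_mul_self]
  · simp [mul_assoc, Int.units_mul_self]
  · simp [mul_assoc, Int.units_mul_self]
  · simp only [lift, Equiv.coe_fn_mk, Units.val_mul]
    rw [h]
    ring

theorem hom_lift_double {k l : Type} [Fintype k] [Fintype l] [DecidableEq k] [DecidableEq l]
    {n : ℕ} (S : Finset (k × l)) (H : Matrix (Fin n) (Fin n) ℤ) :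
    hom S (lift (α := Fin (2 * n)) (β := Fin (2 * n)) (double H)) =
      hom S s2 * hom S (lift (α := Fin n) (β := Fin n) H) := by
  rw [← hom_prod]
  refine hom_reindex S _ _
    ⟨fun a => ((finProdFinEquiv.symm a.1).1, ((finProdFinEquiv.symm a.1).2, a.2)),
      fun a => (finProdFinEquiv (a.1, a.2.1), a.2.2), fun a => ?_, fun a => ?_⟩
    ⟨fun a => ((finProdFinEquiv.symm a.1).1, ((finProdFinEquiv.symm a.1).2, a.2)),
      fun a => (finProdFinEquiv (a.1, a.2.1), a.2.2), fun a => ?_, fun a => ?_⟩ (fun a b => ?_)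
  · simp only [Prod.mk.eta, Equiv.apply_symm_apply]
  · simp only [Equiv.symm_apply_apply, Prod.mk.eta]
  · simp only [Prod.mk.eta, Equiv.apply_symm_apply]
  · simp only [Equiv.symm_apply_apply, Prod.mk.eta]
  · simp only [lift, double, Equiv.coe_fn_mk]
    ring

theorem sum_pos2 {ι κ : Type} [Fintype ι] [Fintype κ] (f : ι → κ → ℤ) (h : ∀ i j, 0 ≤ f i j)
    (i0 : ι) (j0 : κ) (h0 : 0 < f i0 j0) : 0 < ∑ i, ∑ j, f i j := by
  have h1 : 0 < ∑ j, f i0 j :=
    lt_of_lt_of_le h0 (Finset.single_le_sum (fun j _ => h i0 j) (Finset.mem_univ j0))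
  exact lt_of_lt_of_le h1 (Finset.single_le_sum (f := fun i => ∑ j, f i j)
    (fun i _ => Finset.sum_nonneg (fun j _ => h i j)) (Finset.mem_univ i0))

theorem lift_sign {n : ℕ} {H : Fin n → Fin n → ℤ} (hH : ∀ i j, H i j = 1 ∨ H i j = -1)
    (a b : Fin n × ℤˣ) : lift H a b = 1 ∨ lift H a b = -1 := by
  unfold lift
  rcases Int.units_eq_one_or a.2 with h3 | h3 <;>
  rcases Int.units_eq_one_or b.2 with h4 | h4 <;>
  rcases hH a.1 b.1 with h2 | h2 <;> rw [h2, h3, h4] <;> simp

/-- If all homomorphism sums of the lifts agree, then `H` is a signed pull-back of `K`. -/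
theorem core {n : ℕ} (H K : Fin n → Fin n → ℤ) (hH : ∀ i j, H i j = 1 ∨ H i j = -1)
    (hK : ∀ i j, K i j = 1 ∨ K i j = -1)
    (key : ∀ S : Finset (Fin n × Fin n), hom S (lift H) = hom S (lift K)) :
    ∃ u v : Fin n → Fin n × ℤˣ, ∀ i j, H i j = lift K (u i) (v j) := by
  have hpos : 0 < ∑ u : Fin n → Fin n × ℤˣ, ∑ v : Fin n → Fin n × ℤˣ,
      ∏ p : Fin n × Fin n, (1 + H p.1 p.2 * lift H (u p.1) (v p.2)) := by
    have hterm : ∀ (u v : Fin n → Fin n × ℤˣ) (p : Fin n × Fin n),
        0 ≤ 1 + H p.1 p.2 * lift H (u p.1) (v p.2) := by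
      intro u v p
      rcases hH p.1 p.2 with h1 | h1 <;> rcases lift_sign hH (u p.1) (v p.2) with h2 | h2 <;>
        rw [h1, h2] <;> norm_num
    have hnn : ∀ (u v : Fin n → Fin n × ℤˣ), 0 ≤ ∏ p : Fin n × Fin n,
        (1 + H p.1 p.2 * lift H (u p.1) (v p.2)) :=
      fun u v => Finset.prod_nonneg (fun p _ => hterm u v p)
    have hone : 0 < ∏ p : Fin n × Fin n,
        (1 + H p.1 p.2 * lift H ((fun i => (i, 1) : Fin n → Fin n × ℤˣ) p.1)
          ((fun i => (i, 1) : Fin n → Fin n × ℤˣ) p.2)) := by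
      refine Finset.prod_pos (fun p _ => ?_)
      unfold lift
      rcases hH p.1 p.2 with h1 | h1 <;> simp [h1]
    exact sum_pos2 (fun (u v : Fin n → Fin n × ℤˣ) => ∏ p : Fin n × Fin n,
      (1 + H p.1 p.2 * lift H (u p.1) (v p.2))) hnn
      (fun i => (i, 1)) (fun i => (i, 1)) hone
  rw [expand] at hpos
  have heq : (∑ S : Finset (Fin n × Fin n), (∏ p ∈ S, H p.1 p.2) * hom S (lift H)) =
      ∑ S : Finset (Fin n × Fin n), (∏ p ∈ S, H p.1 p.2) * hom S (lift K) :=
    Finset.sum_congr rfl (fun S _ => by rw [key S])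
  rw [heq, ← expand] at hpos
  obtain ⟨u, -, hu⟩ := Finset.exists_ne_zero_of_sum_ne_zero hpos.ne'
  obtain ⟨v, -, hv⟩ := Finset.exists_ne_zero_of_sum_ne_zero hu
  rw [Finset.prod_ne_zero_iff] at hv
  refine ⟨u, v, fun i j => ?_⟩
  have h0 := hv (i, j) (Finset.mem_univ _)
  rcases hH i j with h1 | h1 <;> rcases lift_sign hK (u i) (v j) with h2 | h2 <;>
    simp only [h1, h2] at h0 ⊢ <;> norm_num at h0

theorem det_ne_zero {n : ℕ} {H : Matrix (Fin n) (Fin n) ℤ} (hH : IsHadamard H) (hn : 0 < n) :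
    H.det ≠ 0 := by
  intro h0
  have h1 := congrArg Matrix.det hH.2
  rw [Matrix.det_mul, h0, zero_mul, Matrix.det_smul, Matrix.det_one, mul_one] at h1
  have : (n : ℤ) ^ Fintype.card (Fin n) ≠ 0 := pow_ne_zero _ (by exact_mod_cast hn.ne')
  exact this h1.symm

/-- No two different columns of a Hadamard matrix are proportional by a sign. -/
theorem col_inj {n : ℕ} {H : Matrix (Fin n) (Fin n) ℤ} (hH : IsHadamard H) (j j' : Fin n)
    (s : ℤ) (h : ∀ i, H i j = s * H i j') : j = j' := by
  by_contra hne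
  have hn : 0 < n := j.pos
  have hdet := det_ne_zero hH hn
  have hv : H.mulVec (Pi.single j 1 - s • Pi.single j' 1) = 0 := by
    rw [Matrix.mulVec_sub, Matrix.mulVec_smul, Matrix.mulVec_single_one, Matrix.mulVec_single_one]
    funext i
    simp [Matrix.col_apply, h i]
  have h0 := Matrix.eq_zero_of_mulVec_eq_zero hdet hv
  have h1 := congrFun h0 j
  simp [hne] at h1

theorem transpose_hadamard_col {n : ℕ} {H : Matrix (Fin n) (Fin n) ℤ} (hH : IsHadamard H)
    (i i' : Fin n) (s : ℤ) (h : ∀ j, H i j = s * H i' j) : i = i' := by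
  by_contra hne
  have hn : 0 < n := i.pos
  have hdet : H.transpose.det ≠ 0 := by
    rw [Matrix.det_transpose]
    exact det_ne_zero hH hn
  have hv : H.transpose.mulVec (Pi.single i 1 - s • Pi.single i' 1) = 0 := by
    rw [Matrix.mulVec_sub, Matrix.mulVec_smul, Matrix.mulVec_single_one, Matrix.mulVec_single_one]
    funext j
    simp [h j]
  have h0 := Matrix.eq_zero_of_mulVec_eq_zero hdet hv
  have h1 := congrFun h0 i
  simp [hne] at h1

/-- Cancellation: Hadamard matrices with equivalent doubles are equivalent. -/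
theorem cancel {n : ℕ} {H K : Matrix (Fin n) (Fin n) ℤ} (hH : IsHadamard H) (hK : IsHadamard K)
    (h : Equivalent (double H) (double K)) : Equivalent H K := by
  have key : ∀ S : Finset (Fin n × Fin n), hom S (lift (α := Fin n) (β := Fin n) H) =
      hom S (lift (α := Fin n) (β := Fin n) K) := by
    intro S
    have h1 := hom_lift_eq S h
    rw [hom_lift_double, hom_lift_double] at h1
    exact (mul_left_cancel₀ (hom_s2_pos S).ne' h1).symm
  obtain ⟨u, v, hHK⟩ := core H K hH.1 hK.1 key
  have hf : Function.Injective (fun i => (u i).1) := by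
    intro i i' hii
    simp only at hii
    refine transpose_hadamard_col hH i i' (((u i).2 : ℤ) * ((u i').2 : ℤ)) (fun j => ?_)
    rw [hHK, hHK]
    unfold lift
    rw [hii]
    have h1 : (((u i').2 : ℤˣ) : ℤ) * (((u i').2 : ℤˣ) : ℤ) = 1 := by
      rw [← Units.val_mul, Int.units_mul_self]; rfl
    linear_combination (-((u i).2 : ℤ) * ((v j).2 : ℤ) * K (u i').1 (v j).1) * h1
  have hg : Function.Injective (fun j => (v j).1) := by
    intro j j' hjj
    simp only at hjj
    refine col_inj hH j j' (((v j).2 : ℤ) * ((v j').2 : ℤ)) (fun i => ?_)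
    rw [hHK, hHK]
    unfold lift
    rw [hjj]
    have h1 : (((v j').2 : ℤˣ) : ℤ) * (((v j').2 : ℤˣ) : ℤ) = 1 := by
      rw [← Units.val_mul, Int.units_mul_self]; rfl
    linear_combination (-((u i).2 : ℤ) * ((v j).2 : ℤ) * K (u i).1 (v j').1) * h1
  have hf' := Finite.injective_iff_bijective.mp hf
  have hg' := Finite.injective_iff_bijective.mp hg
  apply Equivalent.symm
  exact ⟨Equiv.ofBijective _ hf', Equiv.ofBijective _ hg', fun i => (u i).2, fun j => (v j).2,
    fun i j => hHK i j⟩

/-- The double of a Hadamard matrix respects equivalence. -/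
theorem double_equivalent {n : ℕ} {H K : Matrix (Fin n) (Fin n) ℤ} (h : Equivalent H K) :
    Equivalent (double H) (double K) := by
  obtain ⟨σ, τ, r, c, h⟩ := h
  refine ⟨(finProdFinEquiv.symm.trans ((Equiv.refl (Fin 2)).prodCongr σ)).trans finProdFinEquiv,
    (finProdFinEquiv.symm.trans ((Equiv.refl (Fin 2)).prodCongr τ)).trans finProdFinEquiv,
    fun i => r (finProdFinEquiv.symm i).2, fun j => c (finProdFinEquiv.symm j).2, fun i j => ?_⟩
  simp only [double, Equiv.trans_apply, Equiv.symm_apply_apply, Equiv.prodCongr_apply,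
    Prod.map_fst, Prod.map_snd, Equiv.refl_apply]
  rw [h]
  ring

/-- The map induced by the double on equivalence classes. -/
def doubleClass (n : ℕ) : Quotient (hadamardSetoid n) → Quotient (hadamardSetoid (2 * n)) :=
  Quotient.map (fun H => (⟨double H.1, double_hadamard H.2⟩ : HadamardMatrix (2 * n)))
    (fun _ _ h => double_equivalent h)

theorem doubleClass_injective (n : ℕ) : Function.Injective (doubleClass n) := by
  intro x y
  refine Quotient.inductionOn₂ x y (fun H K hHK => ?_)
  apply Quotient.sound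
  have h1 := Quotient.exact hHK
  exact cancel H.2 K.2 h1

theorem result : ∀ n : ℕ, 1 ≤ n → numClasses n ≤ numClasses (2 * n) := by
  intro n _
  exact Nat.card_le_card_of_injective (doubleClass n) (doubleClass_injective n)

end Pool.Agent.Results.MP_ced6ff_co.HadamardClasses
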